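import Mathlib
import Pool.Agent.Lib.MP_c9e52c_gt.Intrinsic
import Pool.Agent.Lib.MP_c9e52c_gt.Hopf

/-!
# The volume of vector fields of constant length `r ≤ 2/5` on the seven-sphere

`E` is a Euclidean space of dimension `2m+2 = 8`, such as `R^8`.
-/

set_option autoImplicit false
set_option linter.unusedSectionVars false

open MeasureTheory Metric
open scoped Manifold ContDiff

namespace Pool.Agent.Results.MP_c9e52c_gt.SevenSphere

variable {E : Type} [NormedAddCommGroup E] [InnerProductSpace ℝ E]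

/-- `V` is a tangent vector field of class `C^k` and of constant length `r` on the unit sphere
`S^n` of the Euclidean space `E` of dimension `n + 1`. -/
structure IsField (n : ℕ) [Fact (Module.finrank ℝ E = n + 1)] (k : WithTop ℕ∞) (r : ℝ)
    (V : sphere (0 : E) 1 → E) : Prop where
  smooth : ContMDiff (𝓡 n) 𝓘(ℝ, E) k V
  tangent : ∀ x : sphere (0 : E) 1, inner ℝ (x : E) (V x) = 0
  length : ∀ x : sphere (0 : E) 1, ‖V x‖ = r

/-- The radial extension `y ↦ V (y / |y|)` of `V` (and `0` at the origin). -/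
noncomputable def radialExt (V : sphere (0 : E) 1 → E) (y : E) : E :=
  open Classical in if h : ‖y‖⁻¹ • y ∈ sphere (0 : E) 1 then V ⟨‖y‖⁻¹ • y, h⟩ else 0

/-- The tangent space `T_x S = x^⊥` of the unit sphere. -/
noncomputable def Tan (x : E) : Submodule ℝ E := (ℝ ∙ x)ᗮ

/-- The transpose `A^t` (the adjoint, Mathlib's `star`) of an endomorphism of a Euclidean space. -/
noncomputable def transp {F : Type} [NormedAddCommGroup F] [InnerProductSpace ℝ F]
    [FiniteDimensional ℝ F] (A : F →ₗ[ℝ] F) : F →ₗ[ℝ] F := star A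

/-- The square root of `det (Id + A^t A)`. -/
noncomputable def jac {F : Type} [NormedAddCommGroup F] [InnerProductSpace ℝ F]
    [FiniteDimensional ℝ F] (A : F →ₗ[ℝ] F) : ℝ :=
  Real.sqrt (LinearMap.det (LinearMap.id + transp A ∘ₗ A))

variable [FiniteDimensional ℝ E]

/-- The part in `K` of a linear map `D`, on the subspace `K`: `v ↦` the projection to `K` of `D v`. -/
noncomputable def compress (K : Submodule ℝ E) (D : E →ₗ[ℝ] E) : K →ₗ[ℝ] K :=
  (K.orthogonalProjectionOnto : E →ₗ[ℝ] K) ∘ₗ D ∘ₗ K.subtype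

/-- The covariant derivative `v ↦ ∇_v V` of the round metric at `x`: the tangential part of the
derivative of `V` in the direction `v`, as an endomorphism of the tangent space. -/
noncomputable def nabla (V : sphere (0 : E) 1 → E) (x : sphere (0 : E) 1) :
    Tan (x : E) →ₗ[ℝ] Tan (x : E) :=
  compress (Tan (x : E)) (fderiv ℝ (radialExt V) (x : E))

/-- `c(m;r)`, the sum of `(m choose j)^2 (2m choose 2j)^(-1) r^(2j)` over `j = 0, ..., m`. -/
noncomputable def c (m : ℕ) (r : ℝ) : ℝ :=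
  ∑ j ∈ Finset.range (m + 1), (m.choose j : ℝ) ^ 2 * ((2 * m).choose (2 * j) : ℝ)⁻¹ * r ^ (2 * j)

variable [MeasurableSpace E] [BorelSpace E]

/-- `Vol(V)`, the integral over the sphere of the square root of `det (Id + (∇V)^t ∇V)`. -/
noncomputable def Vol (V : sphere (0 : E) 1 → E) : ℝ :=
  ∫ x : sphere (0 : E) 1, jac (nabla V x) ∂((volume : Measure E).toSphere)

/-- The volume of the unit sphere of `E`. -/
noncomputable def volS (E : Type) [NormedAddCommGroup E] [InnerProductSpace ℝ E]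
    [FiniteDimensional ℝ E] [MeasurableSpace E] [BorelSpace E] : ℝ :=
  ((volume : Measure E).toSphere).real Set.univ

/-- The infimum of `Vol(V)` over the smooth fields of constant length `r` on the unit sphere. -/
noncomputable def infVol (E : Type) [NormedAddCommGroup E] [InnerProductSpace ℝ E]
    [FiniteDimensional ℝ E] [MeasurableSpace E] [BorelSpace E] (n : ℕ)
    [Fact (Module.finrank ℝ E = n + 1)] (r : ℝ) : ℝ :=
  sInf {v : ℝ | ∃ V : sphere (0 : E) 1 → E,
    IsField n ((⊤ : ℕ∞) : WithTop ℕ∞) r V ∧ v = Vol V}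

theorem radialExt_eq (V : sphere (0 : E) 1 → E) (y : E)
    (h : ‖y‖⁻¹ • y ∈ sphere (0 : E) 1) : radialExt V y = V ⟨‖y‖⁻¹ • y, h⟩ := by
  unfold radialExt
  rw [dif_pos h]

theorem unit_mem {y : E} (hy : y ≠ 0) : ‖y‖⁻¹ • y ∈ sphere (0 : E) 1 :=
  mem_sphere_zero_iff_norm.2 (Lib.MP_c9e52c_gt.norm_unit hy)

theorem volS_pos [Nontrivial E] : 0 < volS E := by
  have h1 := Lib.MP_c9e52c_gt.c0_mul (E := E)
  rcases (measureReal_nonneg (μ := (volume : Measure E).toSphere) (s := Set.univ)).lt_or_eq with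
    h2 | h2
  · exact h2
  · exfalso
    have h3 : ((volume : Measure E).toSphere).real Set.univ = 0 := h2.symm
    rw [h3, mul_zero] at h1
    exact zero_ne_one h1

theorem c_three (r : ℝ) : c 3 r = (4 / 5) * (1 + r ^ 6) + (1 / 5) * (1 + r ^ 2) ^ 3 := by
  unfold c
  simp only [Finset.sum_range_succ, Finset.sum_range_zero, Nat.choose]
  norm_num
  ring

/-- The uniform lower bound. -/
theorem lower [Fact (Module.finrank ℝ E = 7 + 1)] (r : ℝ) (hr : 0 < r) (hr1 : r ≤ 2 / 5)
    (V : sphere (0 : E) 1 → E) (hV : IsField 7 2 r V) :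
    (c 3 r + r ^ 12 / 10 ^ 6) * volS E ≤ Vol V := by
  have hfin : Module.finrank ℝ E = 8 := Fact.out
  have : Nontrivial E := Module.nontrivial_of_finrank_pos (R := ℝ) (by rw [hfin]; norm_num)
  have hF : ∀ x : E, x ≠ 0 → ContDiffAt ℝ 2 (radialExt V) x := fun x hx =>
    Lib.MP_c9e52c_gt.contDiffAt_radial V hV.smooth (radialExt V)
      (fun y h _ => radialExt_eq V y h) hx
  have hG := Lib.MP_c9e52c_gt.isFld_of_radial (radialExt V) r hr hF ?_ ?_ ?_
  · have hk := Lib.MP_c9e52c_gt.key_r hG hfin r hr hr1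
    rw [c_three]
    refine hk.trans (le_of_eq ?_)
    unfold Vol
    congr 1
    ext x
    have hx : ‖(x : E)‖ = 1 := mem_sphere_zero_iff_norm.1 x.2
    have hx0 : (x : E) ≠ 0 := by
      intro h
      rw [h, norm_zero] at hx
      exact zero_ne_one hx
    unfold Lib.MP_c9e52c_gt.Wd
    rw [Lib.MP_c9e52c_gt.fderiv_of_radial (radialExt V) r hr hx
      ((hF x hx0).differentiableAt (by norm_num)), Lib.MP_c9e52c_gt.det_tangent _ hx]
    rfl
  · intro a ha x hx
    have hax : a • x ≠ 0 := smul_ne_zero ha.ne' hx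
    rw [radialExt_eq V _ (unit_mem hax), radialExt_eq V _ (unit_mem hx)]
    congr 2
    rw [norm_smul, Real.norm_eq_abs, abs_of_pos ha, smul_smul]
    congr 1
    have := norm_ne_zero_iff.2 hx
    field_simp
  · intro x hx
    rw [radialExt_eq V _ (unit_mem hx)]
    have h := hV.tangent ⟨‖x‖⁻¹ • x, unit_mem hx⟩
    have h2 : inner ℝ (‖x‖⁻¹ • x) (V ⟨‖x‖⁻¹ • x, unit_mem hx⟩) =
        ‖x‖⁻¹ * inner ℝ x (V ⟨‖x‖⁻¹ • x, unit_mem hx⟩) := by
      rw [real_inner_smul_left]
    have h3 : ‖x‖⁻¹ ≠ 0 := inv_ne_zero (norm_ne_zero_iff.2 hx)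
    have h4 : ‖x‖⁻¹ * inner ℝ x (V ⟨‖x‖⁻¹ • x, unit_mem hx⟩) = 0 := by
      rw [← h2]
      exact h
    exact (mul_eq_zero.1 h4).resolve_left h3
  · intro x hx
    rw [radialExt_eq V _ (unit_mem hx)]
    exact hV.length _

/-- The Hopf field `x ↦ r J x` is a smooth field of constant length `r`. -/
theorem exists_field [Fact (Module.finrank ℝ E = 7 + 1)] (r : ℝ) (hr : 0 < r) :
    ∃ V : sphere (0 : E) 1 → E, IsField 7 ((⊤ : ℕ∞) : WithTop ℕ∞) r V := by
  have hfin : Module.finrank ℝ E = 8 := Fact.out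
  let e : E ≃ₗᵢ[ℝ] EuclideanSpace ℝ (Fin 8) := (stdOrthonormalBasis ℝ E).repr.trans
    (LinearIsometryEquiv.piLpCongrLeft 2 ℝ ℝ (finCongr hfin))
  refine ⟨fun x => r • e.symm (Lib.MP_c9e52c_gt.hopfJ (e (x : E))), ?_, ?_, ?_⟩
  · have h1 : ContDiff ℝ ((⊤ : ℕ∞) : WithTop ℕ∞)
        (fun x : E => r • e.symm (Lib.MP_c9e52c_gt.hopfJ (e x))) :=
      (e.symm.contDiff.comp (Lib.MP_c9e52c_gt.contDiff_hopfJ.comp e.contDiff)).const_smul r
    exact h1.contMDiff.comp contMDiff_coe_sphere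
  · intro x
    have h := Lib.MP_c9e52c_gt.inner_hopfJ (e (x : E))
    have h2 : inner ℝ (x : E) (e.symm (Lib.MP_c9e52c_gt.hopfJ (e (x : E)))) =
        inner ℝ (e (x : E)) (Lib.MP_c9e52c_gt.hopfJ (e (x : E))) := by
      rw [← e.inner_map_map, e.apply_symm_apply]
    rw [inner_smul_right, h2, h, mul_zero]
  · intro x
    have hx : ‖(x : E)‖ = 1 := mem_sphere_zero_iff_norm.1 x.2
    rw [norm_smul, Real.norm_eq_abs, abs_of_pos hr, e.symm.norm_map,
      Lib.MP_c9e52c_gt.norm_hopfJ, e.norm_map, hx, mul_one]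

/-- For `0 < r ≤ 2/5` the volume of every `C^2` vector field of constant length `r` on `S^7` is at
least `(c(3;r) + r^12/10^6) vol(S^7)`; smooth fields of length `r` exist, and the infimum of their
volumes is larger than `c(3;r) vol(S^7)`. -/
theorem result (E : Type) [NormedAddCommGroup E] [InnerProductSpace ℝ E] [FiniteDimensional ℝ E]
    [MeasurableSpace E] [BorelSpace E] [Fact (Module.finrank ℝ E = 7 + 1)]
    (r : ℝ) (hr : 0 < r) (hr1 : r ≤ 2 / 5) :
    (∀ V : sphere (0 : E) 1 → E, IsField 7 2 r V →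
      (c 3 r + r ^ 12 / 10 ^ 6) * volS E ≤ Vol V) ∧
    (∃ V : sphere (0 : E) 1 → E, IsField 7 ((⊤ : ℕ∞) : WithTop ℕ∞) r V) ∧
    c 3 r * volS E < infVol E 7 r := by
  have hfin : Module.finrank ℝ E = 8 := Fact.out
  have : Nontrivial E := Module.nontrivial_of_finrank_pos (R := ℝ) (by rw [hfin]; norm_num)
  refine ⟨fun V hV => lower r hr hr1 V hV, exists_field r hr, ?_⟩
  have h1 : (c 3 r + r ^ 12 / 10 ^ 6) * volS E ≤ infVol E 7 r := by
    apply le_csInf
    · obtain ⟨V, hV⟩ := exists_field (E := E) r hr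
      exact ⟨Vol V, V, hV, rfl⟩
    · rintro v ⟨V, hV, rfl⟩
      exact lower r hr hr1 V ⟨hV.smooth.of_le (WithTop.coe_le_coe.2 (le_top : (2 : ℕ∞) ≤ ⊤)),
        hV.tangent, hV.length⟩
  refine lt_of_lt_of_le ?_ h1
  apply mul_lt_mul_of_pos_right _ volS_pos
  have : 0 < r ^ 12 / 10 ^ 6 := by positivity
  linarith

end Pool.Agent.Results.MP_c9e52c_gt.SevenSphere
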